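import Mathlib

/-!
# The ray graph and the Smale horseshoe: definitions
-/

namespace Pool.Agent.H83.Horseshoe

open Set OnePoint

/-- The plane `ℝ²`. Its one-point compactification `OnePoint Plane` is the sphere
`S² = ℝ² ∪ {∞}`. -/
abbrev Plane : Type := ℝ × ℝ

/-- Parametrized paths in the sphere. -/
abbrev SPath : Type := unitInterval → OnePoint Plane

/-- A ray of `C ⊆ ℝ²`: a simple arc in `S² = ℝ² ∪ {∞}` from `∞` to a point of `C` whose interior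
lies in `ℝ² ∖ C`. -/
def IsRay (C : Set Plane) (γ : SPath) : Prop :=
  Continuous γ ∧ Function.Injective γ ∧ γ 0 = ∞ ∧ (∃ p ∈ C, γ 1 = (p : OnePoint Plane)) ∧
    ∀ t : unitInterval, 0 < t → t < 1 → ∃ q : Plane, q ∉ C ∧ γ t = (q : OnePoint Plane)

/-- Two rays of `C` are isotopic if a jointly continuous one-parameter family of rays of `C`
joins them. -/
def Isotopic (C : Set Plane) (γ δ : SPath) : Prop :=
  ∃ H : unitInterval → SPath,
    Continuous (fun q : unitInterval × unitInterval => H q.1 q.2) ∧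
      (∀ s, IsRay C (H s)) ∧ H 0 = γ ∧ H 1 = δ

/-- `v` is an isotopy class of rays of `C`, that is, a vertex of the ray graph. -/
def IsRayClass (C : Set Plane) (v : Set SPath) : Prop :=
  ∃ γ, IsRay C γ ∧ v = {δ | Isotopic C γ δ}

/-- The ray graph `𝓡(C)`: two distinct isotopy classes of rays of `C` are adjacent when they have
representatives which meet only at `∞`. (Sets of paths which are not isotopy classes of rays are
isolated and play no role.) -/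
def rayGraph (C : Set Plane) : SimpleGraph (Set SPath) :=
  SimpleGraph.fromRel fun v w => IsRayClass C v ∧ IsRayClass C w ∧
    ∃ γ ∈ v, ∃ δ ∈ w, range γ ∩ range δ = {∞}

/-- The action of a map `f` of the plane on (classes of) paths: `γ ↦ f ∘ γ`, with `f(∞) = ∞`. -/
def push (f : Plane → Plane) (v : Set SPath) : Set SPath :=
  (fun (γ : SPath) (t : unitInterval) => OnePoint.map f (γ t)) '' v

/-- The unit square `Q = [0,1]²`. -/
def Q : Set Plane := {q | 0 ≤ q.1 ∧ q.1 ≤ 1 ∧ 0 ≤ q.2 ∧ q.2 ≤ 1}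

/-- `IsUpHorseshoe f a₀ b₀ a₁ b₁ c₀ d₀ c₁ d₁`: the map `f` of the plane is a horseshoe map folded
over the top side of `Q`. With `Hᵢ = [0,1] × [aᵢ,bᵢ]` (`H₀` below `H₁`) and `Vᵢ = [cᵢ,dᵢ] × [0,1]`
(disjoint, in either order), `f` maps `H₀` onto `V₀` by the affine map preserving both coordinate
directions and `H₁` onto `V₁` by the affine map reversing both; it sends the rest of `Q` outside
`Q`, and it sends the part of `Q` between `H₀` and `H₁` into the open upper half-plane (so the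
image passes over `Q`). -/
def IsUpHorseshoe (f : Plane → Plane) (a₀ b₀ a₁ b₁ c₀ d₀ c₁ d₁ : ℝ) : Prop :=
  (0 ≤ a₀ ∧ a₀ < b₀ ∧ b₀ < a₁ ∧ a₁ < b₁ ∧ b₁ ≤ 1) ∧
  (0 ≤ c₀ ∧ c₀ < d₀ ∧ d₀ ≤ 1) ∧ (0 ≤ c₁ ∧ c₁ < d₁ ∧ d₁ ≤ 1) ∧ (d₀ < c₁ ∨ d₁ < c₀) ∧
  (∀ x y : ℝ, 0 ≤ x → x ≤ 1 → a₀ ≤ y → y ≤ b₀ →
    f (x, y) = (c₀ + (d₀ - c₀) * x, (y - a₀) / (b₀ - a₀))) ∧
  (∀ x y : ℝ, 0 ≤ x → x ≤ 1 → a₁ ≤ y → y ≤ b₁ →
    f (x, y) = (d₁ - (d₁ - c₁) * x, (b₁ - y) / (b₁ - a₁))) ∧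
  (∀ q ∈ Q, (q.2 < a₀ ∨ (b₀ < q.2 ∧ q.2 < a₁) ∨ b₁ < q.2) → f q ∉ Q) ∧
  (∀ q ∈ Q, b₀ < q.2 → q.2 < a₁ → 0 < (f q).2)

/-- The reflection `(x, y) ↦ (x, 1 - y)` of the plane, which preserves `Q`. -/
def flip (q : Plane) : Plane := (q.1, 1 - q.2)

/-- `f` is a Smale horseshoe map: a homeomorphism of the plane which is a horseshoe map folded over
the top side of `Q`, or (the mirror image) under the bottom side, with any admissible positions and
widths of the strips. -/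
def IsHorseshoe (f : Plane → Plane) : Prop :=
  IsHomeomorph f ∧ ∃ a₀ b₀ a₁ b₁ c₀ d₀ c₁ d₁ : ℝ,
    IsUpHorseshoe f a₀ b₀ a₁ b₁ c₀ d₀ c₁ d₁ ∨
      IsUpHorseshoe (fun q => flip (f (flip q))) a₀ b₀ a₁ b₁ c₀ d₀ c₁ d₁

/-- The invariant set `Λ = ⋂_{n ∈ ℤ} fⁿ(Q)` of a bijection `f`: the forward images `fⁿ(Q)` and the
preimages `f⁻ⁿ(Q)`, `n ≥ 0`. -/
def invSet (f : Plane → Plane) : Set Plane := (⋂ n : ℕ, f^[n] '' Q) ∩ ⋂ n : ℕ, f^[n] ⁻¹' Q

end Pool.Agent.H83.Horseshoe
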