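import Mathlib

/-! Inversion coordinates at infinity and the Alexander isotopy of arcs. -/

namespace Pool.Agent.H83.RayAlexander

open Set Filter Topology OnePoint unitInterval

abbrev Plane : Type := ℝ × ℝ

/-- inversion about `c`, sending infinity to `0`. -/
noncomputable def inv (c : Plane) : OnePoint Plane → Plane
  | ∞ => 0
  | (x : Plane) => (‖x - c‖ ^ 2)⁻¹ • (x - c)

/-- the inverse of `inv c`, sending `0` to infinity. -/
noncomputable def jnv (c : Plane) (v : Plane) : OnePoint Plane :=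
  open Classical in if v = 0 then ∞ else ((c + (‖v‖ ^ 2)⁻¹ • v : Plane) : OnePoint Plane)

lemma inv_infty (c : Plane) : inv c ∞ = 0 := rfl
lemma inv_coe (c x : Plane) : inv c (x : OnePoint Plane) = (‖x - c‖ ^ 2)⁻¹ • (x - c) := rfl

lemma jnv_zero (c : Plane) : jnv c 0 = ∞ := by simp [jnv]
lemma jnv_ne {c v : Plane} (hv : v ≠ 0) :
    jnv c v = ((c + (‖v‖ ^ 2)⁻¹ • v : Plane) : OnePoint Plane) := by simp [jnv, hv]

lemma jnv_inv {c : Plane} {x : OnePoint Plane} (hx : x ≠ (c : OnePoint Plane)) :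
    jnv c (inv c x) = x := by
  induction x using OnePoint.rec with
  | infty => simp [inv_infty, jnv_zero]
  | coe x =>
    have hxc : x - c ≠ 0 := by
      intro h; apply hx; rw [sub_eq_zero.mp h]
    have hn : ‖x - c‖ ≠ 0 := norm_ne_zero_iff.mpr hxc
    have h1 : inv c (x : OnePoint Plane) ≠ 0 := by
      rw [inv_coe]; exact smul_ne_zero (inv_ne_zero (pow_ne_zero 2 hn)) hxc
    rw [jnv_ne h1, inv_coe, norm_smul, smul_smul]
    congr 1
    have : (((‖(‖x - c‖ ^ 2)⁻¹‖ * ‖x - c‖) ^ 2)⁻¹ * (‖x - c‖ ^ 2)⁻¹) = 1 := by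
      rw [norm_inv, norm_pow, norm_norm]
      field_simp
    rw [this, one_smul]; abel

lemma jnv_injective (c : Plane) : Function.Injective (jnv c) := by
  intro v w h
  by_cases hv : v = 0
  · by_cases hw : w = 0
    · rw [hv, hw]
    · rw [hv, jnv_zero, jnv_ne hw] at h
      exact absurd h (OnePoint.infty_ne_coe _)
  · by_cases hw : w = 0
    · rw [hw, jnv_zero, jnv_ne hv] at h
      exact absurd h (OnePoint.coe_ne_infty _)
    · rw [jnv_ne hv, jnv_ne hw, OnePoint.coe_eq_coe] at h
      have h' : (‖v‖ ^ 2)⁻¹ • v = (‖w‖ ^ 2)⁻¹ • w := add_left_cancel h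
      have hnv : ‖v‖ ≠ 0 := norm_ne_zero_iff.mpr hv
      have hnw : ‖w‖ ≠ 0 := norm_ne_zero_iff.mpr hw
      have hn : ‖v‖ = ‖w‖ := by
        have := congrArg norm h'
        rw [norm_smul, norm_smul, norm_inv, norm_inv, norm_pow, norm_pow, norm_norm, norm_norm]
          at this
        field_simp at this
        exact this.symm
      rw [hn] at h'
      exact smul_right_injective _ (inv_ne_zero (pow_ne_zero 2 hnw)) h'

lemma norm_jnv_sub {c v : Plane} (hv : v ≠ 0) : ‖(c + (‖v‖ ^ 2)⁻¹ • v) - c‖ = ‖v‖⁻¹ := by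
  have hnv : ‖v‖ ≠ 0 := norm_ne_zero_iff.mpr hv
  rw [add_sub_cancel_left, norm_smul, norm_inv, norm_pow, norm_norm]
  field_simp

lemma continuous_jnv (c : Plane) : Continuous (jnv c) := by
  rw [continuous_iff_continuousAt]
  intro v
  by_cases hv : v = 0
  · subst hv
    rw [ContinuousAt, jnv_zero, OnePoint.hasBasis_nhds_infty.tendsto_right_iff]
    rintro s ⟨-, hs⟩
    obtain ⟨R, hR⟩ := hs.isBounded.subset_closedBall c
    have hev : ∀ᶠ v : Plane in 𝓝 0, ‖v‖ < (max R 0 + 1)⁻¹ := by
      have : Tendsto (fun v : Plane => ‖v‖) (𝓝 0) (𝓝 ‖(0 : Plane)‖) := continuous_norm.tendsto 0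
      rw [norm_zero] at this
      exact this.eventually (gt_mem_nhds (by positivity))
    filter_upwards [hev] with v hv
    by_cases h0 : v = 0
    · right; rw [h0, jnv_zero]; rfl
    · left
      refine ⟨_, ?_, (jnv_ne h0).symm⟩
      intro hmem
      have h1 := hR hmem
      rw [Metric.mem_closedBall, dist_eq_norm, norm_jnv_sub h0] at h1
      have hnv : 0 < ‖v‖ := norm_pos_iff.mpr h0
      have h2 : max R 0 + 1 < ‖v‖⁻¹ := by
        rw [lt_inv_comm₀ (by positivity) hnv]; exact hv
      have := le_max_left R 0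
      linarith
  · have h1 : ContinuousAt (fun v : Plane => ((c + (‖v‖ ^ 2)⁻¹ • v : Plane) : OnePoint Plane)) v := by
      have h2 : ContinuousAt (fun v : Plane => (c + (‖v‖ ^ 2)⁻¹ • v : Plane)) v := by
        have h3 : ContinuousAt (fun v : Plane => (‖v‖ ^ 2)⁻¹) v :=
          ContinuousAt.inv₀ (by fun_prop) (by simpa using hv)
        exact continuousAt_const.add (h3.smul continuousAt_id)
      exact OnePoint.continuous_coe.continuousAt.comp h2
    refine h1.congr ?_
    filter_upwards [isOpen_ne.mem_nhds hv] with w hw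
    exact (jnv_ne hw).symm

lemma norm_inv_coe {c x : Plane} (hx : x ≠ c) : ‖inv c (x : OnePoint Plane)‖ = ‖x - c‖⁻¹ := by
  have hnv : ‖x - c‖ ≠ 0 := norm_ne_zero_iff.mpr (sub_ne_zero.mpr hx)
  rw [inv_coe, norm_smul, norm_inv, norm_pow, norm_norm]
  field_simp

lemma continuousAt_inv {c : Plane} {x : OnePoint Plane} (hx : x ≠ (c : OnePoint Plane)) :
    ContinuousAt (inv c) x := by
  induction x using OnePoint.rec with
  | infty =>
    rw [OnePoint.continuousAt_infty', inv_infty, coclosedCompact_eq_cocompact]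
    rw [tendsto_zero_iff_norm_tendsto_zero]
    have h1 : Tendsto (fun x : Plane => ‖x - c‖⁻¹) (cocompact Plane) (𝓝 0) := by
      apply tendsto_inv_atTop_zero.comp
      have := tendsto_norm_cocompact_atTop (E := Plane)
      have h2 : Tendsto (fun x : Plane => ‖x‖ - ‖c‖) (cocompact Plane) atTop :=
        tendsto_atTop_add_const_right _ _ this
      exact tendsto_atTop_mono (fun x => norm_sub_norm_le x c) h2
    refine h1.congr' ?_
    have : ∀ᶠ x : Plane in cocompact Plane, x ≠ c := by
      exact (isCompact_singleton (x := c)).compl_mem_cocompact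
    filter_upwards [this] with x hx
    exact (norm_inv_coe hx).symm
  | coe x =>
    rw [OnePoint.continuousAt_coe]
    have hxc : x - c ≠ 0 := by
      intro h; apply hx; rw [sub_eq_zero.mp h]
    have h3 : ContinuousAt (fun v : Plane => (‖v - c‖ ^ 2)⁻¹) x :=
      ContinuousAt.inv₀ (by fun_prop) (by simpa using hxc)
    have h4 : ContinuousAt (fun v : Plane => v - c) x := by fun_prop
    exact h3.smul h4

/-- The Alexander isotopy of arcs, in inversion coordinates. -/
noncomputable def alex (b : I → Plane) (q : I × I) : Plane :=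
  (q.1 : ℝ) • b (projIcc 0 1 zero_le_one ((q.2 : ℝ) / (q.1 : ℝ))) +
    (max ((q.2 : ℝ) - (q.1 : ℝ)) 0) • b 1

lemma alex_of_le (b : I → Plane) {s t : I} (hs : 0 < s) (hts : t ≤ s) :
    alex b (s, t) = (s : ℝ) • b ⟨(t : ℝ) / (s : ℝ), by
      have : (0 : ℝ) < s := hs
      have h2 : (t : ℝ) ≤ s := hts
      exact ⟨div_nonneg t.2.1 s.2.1, (div_le_one this).mpr h2⟩⟩ := by
  have hs' : (0 : ℝ) < s := hs
  have h2 : (t : ℝ) ≤ s := hts
  have h3 : (t : ℝ) / (s : ℝ) ∈ Icc (0 : ℝ) 1 :=
    ⟨div_nonneg t.2.1 s.2.1, (div_le_one hs').mpr h2⟩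
  rw [alex]
  simp only
  rw [projIcc_of_mem zero_le_one h3, max_eq_right (by linarith), zero_smul, add_zero]

lemma alex_of_ge (b : I → Plane) {s t : I} (hts : s ≤ t) :
    alex b (s, t) = (t : ℝ) • b 1 := by
  have h2 : (s : ℝ) ≤ t := hts
  rw [alex]
  simp only
  rw [max_eq_left (by linarith)]
  rcases eq_or_lt_of_le (show (0 : ℝ) ≤ s from s.2.1) with h | h
  · rw [← h]; simp
  · have h3 : (1 : ℝ) ≤ (t : ℝ) / (s : ℝ) := (one_le_div h).mpr h2
    rw [projIcc_of_right_le zero_le_one h3]
    change (s : ℝ) • b 1 + _ = _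
    rw [← add_smul]
    congr 1; ring

lemma continuous_alex {b : I → Plane} (hb : Continuous b) : Continuous (alex b) := by
  have h2 : Continuous fun q : I × I => (max ((q.2 : ℝ) - (q.1 : ℝ)) 0) • b 1 := by fun_prop
  have h1 : Continuous fun q : I × I =>
      (q.1 : ℝ) • b (projIcc 0 1 zero_le_one ((q.2 : ℝ) / (q.1 : ℝ))) := by
    rw [continuous_iff_continuousAt]
    rintro ⟨s, t⟩
    rcases eq_or_lt_of_le (show (0 : ℝ) ≤ s from s.2.1) with h | h
    · have hbd : ∃ C, ∀ x, ‖b x‖ ≤ C := by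
        obtain ⟨C, hC⟩ := isCompact_univ.exists_bound_of_continuousOn (f := b) hb.continuousOn
        exact ⟨C, fun x => hC x (mem_univ x)⟩
      obtain ⟨C, hC⟩ := hbd
      have h0 : (s : ℝ) = 0 := h.symm
      rw [ContinuousAt]
      simp only [h0, zero_smul]
      rw [tendsto_zero_iff_norm_tendsto_zero]
      have h5 : Tendsto (fun q : I × I => (q.1 : ℝ) * C) (𝓝 (s, t)) (𝓝 0) := by
        have : Continuous fun q : I × I => (q.1 : ℝ) * C := by fun_prop
        have h6 := this.tendsto (s, t)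
        simpa [h0] using h6
      refine squeeze_zero (fun q => norm_nonneg _) (fun q => ?_) h5
      rw [norm_smul, Real.norm_of_nonneg q.1.2.1]
      exact mul_le_mul_of_nonneg_left (hC _) q.1.2.1
    · have h3 : ContinuousAt (fun q : I × I => ((q.2 : ℝ) / (q.1 : ℝ))) (s, t) :=
        ContinuousAt.div (by fun_prop) (by fun_prop) h.ne'
      have h4 : ContinuousAt
          (fun q : I × I => b (projIcc 0 1 zero_le_one ((q.2 : ℝ) / (q.1 : ℝ)))) (s, t) :=
        (hb.comp continuous_projIcc).continuousAt.comp h3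
      have h7 : ContinuousAt (fun q : I × I => (q.1 : ℝ)) (s, t) := by fun_prop
      exact h7.smul h4
  exact h1.add h2

/-- **Alexander isotopy of arcs in inversion coordinates.** -/
lemma alexander_lin (b : I → Plane) (hb : Continuous b) (h0 : b 0 = 0) (S : Set Plane)
    (hS : ∀ v ∈ S, ∀ r : ℝ, 1 ≤ r → r • v ∈ S) (h1S : b 1 ∈ S) (hbS : ∀ t, t < 1 → b t ∉ S)
    (hpS : ∀ r : ℝ, 0 < r → r < 1 → r • b 1 ∉ S) (hinj : Function.Injective b) :
    ∃ H : I × I → Plane, Continuous H ∧ (∀ t, H (0, t) = (t : ℝ) • b 1) ∧ (∀ t, H (1, t) = b t) ∧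
      (∀ s, H (s, 0) = 0) ∧ (∀ s, H (s, 1) = b 1) ∧ (∀ s t, t < 1 → H (s, t) ∉ S) ∧
      ∀ s, Function.Injective fun t => H (s, t) := by
  have h0S : (0 : Plane) ∉ S := by rw [← h0]; exact hbS 0 zero_lt_one
  have hb1 : b 1 ≠ 0 := fun h => h0S (h ▸ h1S)
  refine ⟨alex b, continuous_alex hb, ?_, ?_, ?_, ?_, ?_, ?_⟩
  · intro t; exact alex_of_ge b t.2.1
  · intro t
    rw [alex_of_le b zero_lt_one t.2.2]
    simp
  · intro s
    rcases eq_or_lt_of_le (show 0 ≤ s from s.2.1) with h | h
    · rw [← h, alex_of_ge b le_rfl]; simp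
    · rw [alex_of_le b h s.2.1]
      simp [h0]
  · intro s
    rw [alex_of_ge b s.2.2]; simp
  · intro s t ht hmem
    rcases le_or_gt s t with h | h
    · rw [alex_of_ge b h] at hmem
      rcases eq_or_lt_of_le (show (0 : ℝ) ≤ t from t.2.1) with h' | h'
      · rw [← h', zero_smul] at hmem; exact h0S hmem
      · exact hpS _ h' ht hmem
    · have hs : 0 < s := lt_of_le_of_lt t.2.1 h
      have hs' : (0 : ℝ) < s := hs
      rw [alex_of_le b hs h.le] at hmem
      have h3 := hS _ hmem ((s : ℝ)⁻¹) ((one_le_inv₀ hs').mpr s.2.2)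
      rw [smul_smul, inv_mul_cancel₀ hs'.ne', one_smul] at h3
      refine hbS _ ?_ h3
      rw [← Subtype.coe_lt_coe]
      exact (div_lt_one hs').mpr h
  · intro s
    -- a helper: a value on the scaled arc is never a value on the radial part
    have key : ∀ t t' : I, t < s → s ≤ t' → alex b (s, t) ≠ alex b (s, t') := by
      intro t t' ht ht' heq
      have hs : 0 < s := lt_of_le_of_lt t.2.1 ht
      have hs' : (0 : ℝ) < s := hs
      rw [alex_of_le b hs ht.le, alex_of_ge b ht'] at heq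
      have h3 : (t' : ℝ) / s ≥ 1 := (one_le_div hs').mpr ht'
      have h4 := hS _ h1S _ h3
      have h5 : ((t' : ℝ) / s) • b 1 = (s : ℝ)⁻¹ • ((t' : ℝ) • b 1) := by
        rw [smul_smul]; congr 1; field_simp
      rw [h5, ← heq, smul_smul, inv_mul_cancel₀ hs'.ne', one_smul] at h4
      refine hbS _ ?_ h4
      rw [← Subtype.coe_lt_coe]
      exact (div_lt_one hs').mpr ht
    intro t t' heq
    simp only at heq
    rcases lt_or_ge t s with h | h <;> rcases lt_or_ge t' s with h' | h'
    · have hs : 0 < s := lt_of_le_of_lt t.2.1 h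
      have hs' : (0 : ℝ) < s := hs
      rw [alex_of_le b hs h.le, alex_of_le b hs h'.le] at heq
      have h3 := hinj (smul_right_injective _ hs'.ne' heq)
      have h3' : (t : ℝ) / s = t' / s := congrArg Subtype.val h3
      apply Subtype.ext
      field_simp at h3'
      exact h3'
    · exact absurd heq (key t t' h h')
    · exact absurd heq.symm (key t' t h' h)
    · rw [alex_of_ge b h, alex_of_ge b h'] at heq
      apply Subtype.ext
      by_contra hne
      have h6 : ((t : ℝ) - t') • b 1 = 0 := by rw [sub_smul, heq, sub_self]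
      rcases smul_eq_zero.mp h6 with h7 | h7
      · exact hne (by linarith)
      · exact hb1 h7

end Pool.Agent.H83.RayAlexander
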