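import Mathlib
import Pool.Agent.H83.RayAlexander
import Pool.Agent.H83.HorseshoeDefs

/-!
# The Smale horseshoe fixes a vertex of the ray graph: proofs
-/

namespace Pool.Agent.H83.Horseshoe

open Set Filter Topology OnePoint unitInterval

lemma Isotopic.refl {C : Set Plane} {γ : SPath} (h : IsRay C γ) : Isotopic C γ γ :=
  ⟨fun _ => γ, h.1.comp continuous_snd, fun _ => h, rfl, rfl⟩

lemma Isotopic.left {C : Set Plane} {γ δ : SPath} (h : Isotopic C γ δ) : IsRay C γ := by
  obtain ⟨H, -, hr, h0, -⟩ := h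
  exact h0 ▸ hr 0

lemma Isotopic.right {C : Set Plane} {γ δ : SPath} (h : Isotopic C γ δ) : IsRay C δ := by
  obtain ⟨H, -, hr, -, h1⟩ := h
  exact h1 ▸ hr 1

lemma Isotopic.symm {C : Set Plane} {γ δ : SPath} (h : Isotopic C γ δ) : Isotopic C δ γ := by
  obtain ⟨H, hH, hr, h0, h1⟩ := h
  refine ⟨fun s => H (σ s), ?_, fun s => hr _, by simpa using h1, by simpa using h0⟩
  have : Continuous fun q : I × I => (σ q.1, q.2) := by fun_prop
  exact hH.comp this

lemma Isotopic.trans {C : Set Plane} {γ δ ε : SPath} (h : Isotopic C γ δ)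
    (h' : Isotopic C δ ε) : Isotopic C γ ε := by
  obtain ⟨H, hH, hHr, h0, h1⟩ := h
  obtain ⟨K, hK, hKr, k0, k1⟩ := h'
  refine ⟨fun s => if (s : ℝ) ≤ 1 / 2 then H (projIcc 0 1 zero_le_one (2 * (s : ℝ)))
    else K (projIcc 0 1 zero_le_one (2 * (s : ℝ) - 1)), ?_, ?_, ?_, ?_⟩
  · have e : (fun q : I × I => ((if (q.1 : ℝ) ≤ 1 / 2 then
        H (projIcc 0 1 zero_le_one (2 * (q.1 : ℝ)))
        else K (projIcc 0 1 zero_le_one (2 * (q.1 : ℝ) - 1)) : SPath)) q.2) =
        fun q : I × I => if (q.1 : ℝ) ≤ 1 / 2 then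
          (H (projIcc 0 1 zero_le_one (2 * (q.1 : ℝ)))) q.2
        else (K (projIcc 0 1 zero_le_one (2 * (q.1 : ℝ) - 1))) q.2 := by
      funext q; split_ifs <;> rfl
    rw [e]
    refine Continuous.if_le ?_ ?_ (by fun_prop) (by fun_prop) ?_
    · have : Continuous fun q : I × I => (projIcc 0 1 zero_le_one (2 * (q.1 : ℝ)), q.2) :=
        (continuous_projIcc.comp (by fun_prop)).prodMk continuous_snd
      exact hH.comp this
    · have : Continuous fun q : I × I => (projIcc 0 1 zero_le_one (2 * (q.1 : ℝ) - 1), q.2) :=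
        (continuous_projIcc.comp (by fun_prop)).prodMk continuous_snd
      exact hK.comp this
    · intro q hq
      rw [hq]
      have e1 : projIcc (0 : ℝ) 1 zero_le_one (2 * (1 / 2)) = 1 := by
        rw [show (2 : ℝ) * (1 / 2) = 1 by norm_num]; exact projIcc_right _
      have e2 : projIcc (0 : ℝ) 1 zero_le_one (2 * (1 / 2) - 1) = 0 := by
        rw [show (2 : ℝ) * (1 / 2) - 1 = 0 by norm_num]; exact projIcc_left _
      rw [e1, e2, h1, k0]
  · intro s
    simp only
    split_ifs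
    · exact hHr _
    · exact hKr _
  · have : ((0 : I) : ℝ) ≤ 1 / 2 := by norm_num
    simp only
    rw [if_pos this, ← h0]
    congr 1
    rw [show (2 : ℝ) * ((0 : I) : ℝ) = 0 by simp]; exact projIcc_left _
  · have : ¬ ((1 : I) : ℝ) ≤ 1 / 2 := by norm_num
    simp only
    rw [if_neg this, ← k1]
    congr 1
    rw [show (2 : ℝ) * ((1 : I) : ℝ) - 1 = 1 by norm_num]; exact projIcc_right _

lemma class_eq_of_isotopic {C : Set Plane} {γ δ : SPath} (h : Isotopic C γ δ) :
    {ε | Isotopic C γ ε} = {ε | Isotopic C δ ε} := by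
  ext ε
  exact ⟨fun h' => h.symm.trans h', fun h' => h.trans h'⟩

/-! ### The action of plane homeomorphisms -/

/-- the action on paths -/
def comp' (f : Plane → Plane) (γ : SPath) : SPath := fun t => OnePoint.map f (γ t)

lemma push_eq (f : Plane → Plane) (v : Set SPath) : push f v = comp' f '' v := rfl

lemma map_eq_congr (f : Plane ≃ₜ Plane) (x : OnePoint Plane) :
    OnePoint.map f x = f.onePointCongr x := rfl

lemma IsRay.map {C : Set Plane} (f : Plane ≃ₜ Plane) (hf : f '' C = C) {γ : SPath}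
    (h : IsRay C γ) : IsRay C (comp' f γ) := by
  obtain ⟨h1, h2, h3, ⟨p, hp, h4⟩, h5⟩ := h
  refine ⟨f.onePointCongr.continuous.comp h1, f.onePointCongr.injective.comp h2, ?_,
    ⟨f p, hf ▸ mem_image_of_mem f hp, ?_⟩, ?_⟩
  · simp only [comp', h3]; rfl
  · simp only [comp', h4]; rfl
  · intro t h0 h1
    obtain ⟨q, hq, h⟩ := h5 t h0 h1
    refine ⟨f q, ?_, by simp only [comp', h]; rfl⟩
    rw [← hf]
    rintro ⟨q', hq', he⟩
    exact hq (f.injective he ▸ hq')

lemma Isotopic.map {C : Set Plane} (f : Plane ≃ₜ Plane) (hf : f '' C = C) {γ δ : SPath}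
    (h : Isotopic C γ δ) : Isotopic C (comp' f γ) (comp' f δ) := by
  obtain ⟨H, hH, hr, h0, h1⟩ := h
  exact ⟨fun s => comp' f (H s), f.onePointCongr.continuous.comp hH, fun s => (hr s).map f hf,
    congrArg (comp' f) h0, congrArg (comp' f) h1⟩

lemma symm_image {C : Set Plane} {f : Plane ≃ₜ Plane} (hf : f '' C = C) : f.symm '' C = C := by
  conv_lhs => rw [← hf]
  rw [← image_comp]
  simp

lemma comp'_symm (f : Plane ≃ₜ Plane) (γ : SPath) : comp' f (comp' f.symm γ) = γ := by
  funext t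
  exact f.onePointCongr.apply_symm_apply (γ t)

lemma comp'_symm' (f : Plane ≃ₜ Plane) (γ : SPath) : comp' f.symm (comp' f γ) = γ := by
  funext t
  exact f.onePointCongr.symm_apply_apply (γ t)

lemma comp'_injective (f : Plane ≃ₜ Plane) : Function.Injective (comp' f) :=
  Function.LeftInverse.injective (comp'_symm' f)

lemma push_class {C : Set Plane} (f : Plane ≃ₜ Plane) (hf : f '' C = C) (γ : SPath) :
    push f {δ | Isotopic C γ δ} = {δ | Isotopic C (comp' f γ) δ} := by
  ext δ
  constructor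
  · rintro ⟨δ', h, rfl⟩
    exact h.map f hf
  · intro h
    refine ⟨comp' f.symm δ, ?_, comp'_symm f δ⟩
    have := h.map f.symm (symm_image hf)
    rw [comp'_symm'] at this
    exact this

lemma IsRayClass.push {C : Set Plane} (f : Plane ≃ₜ Plane) (hf : f '' C = C) {v : Set SPath}
    (h : IsRayClass C v) : IsRayClass C (push f v) := by
  obtain ⟨γ, hγ, rfl⟩ := h
  exact ⟨comp' f γ, hγ.map f hf, push_class f hf γ⟩

/-- Geometric data from which a fixed ray is constructed: a set `K ⊇ C`, star-shaped about `c`,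
a point `p ∈ C` fixed by `f`, such that the half-line from `p` away from `c` misses `K` and
`f(K)`. -/
structure RayData (f : Plane ≃ₜ Plane) (C : Set Plane) (K : Set Plane) (c p : Plane) : Prop where
  subset : C ⊆ K
  star : ∀ x ∈ K, ∀ r : ℝ, 0 ≤ r → r ≤ 1 → c + r • (x - c) ∈ K
  mem : p ∈ C
  fixed : f p = p
  ne : p ≠ c
  ray : ∀ r : ℝ, 1 < r → c + r • (p - c) ∉ K
  ray' : ∀ r : ℝ, 1 < r → c + r • (p - c) ∉ f '' K

open Pool.Agent.H83.RayAlexander in
/-- The radial ray is isotopic to its image. -/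
lemma exists_fixed_ray {f : Plane ≃ₜ Plane} {C K : Set Plane} {c p : Plane}
    (hC : f '' C = C) (h : RayData f C K c p) :
    ∃ γ : SPath, Isotopic C γ (comp' f γ) := by
  have hpK : p ∈ K := h.subset h.mem
  have hcK : c ∈ K := by simpa using h.star p hpK 0 le_rfl zero_le_one
  set w : Plane := inv c (p : OnePoint Plane) with hw
  have hpc : (p : OnePoint Plane) ≠ (c : OnePoint Plane) := fun e => h.ne (OnePoint.coe_injective e)
  have hnpc : 0 < ‖p - c‖ := norm_pos_iff.mpr (sub_ne_zero.mpr h.ne)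
  have hw0 : w ≠ 0 := by
    rw [hw, inv_coe]
    exact smul_ne_zero (inv_ne_zero (pow_ne_zero 2 hnpc.ne')) (sub_ne_zero.mpr h.ne)
  -- the radial path
  have hrad : ∀ t : ℝ, 0 < t → jnv c (t • w) = ((c + t⁻¹ • (p - c) : Plane) : OnePoint Plane) := by
    intro t ht
    rw [jnv_ne (smul_ne_zero ht.ne' hw0), hw, inv_coe, norm_smul, norm_smul, norm_inv, norm_pow,
      norm_norm, Real.norm_of_nonneg ht.le, smul_smul, smul_smul]
    congr 3
    field_simp
  have hrad1 : jnv c w = p := by rw [hw, jnv_inv hpc]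
  have hradK : ∀ t : ℝ, 0 < t → t < 1 → ∀ x ∈ K, jnv c (t • w) ≠ x := by
    intro t h0 h1 x hx e
    rw [hrad t h0, OnePoint.coe_eq_coe] at e
    exact h.ray t⁻¹ ((one_lt_inv₀ h0).mpr h1) (e ▸ hx)
  have hradK' : ∀ t : ℝ, 0 < t → t < 1 → ∀ x ∈ K, jnv c (t • w) ≠ (f x : Plane) := by
    intro t h0 h1 x hx e
    rw [hrad t h0, OnePoint.coe_eq_coe] at e
    exact h.ray' t⁻¹ ((one_lt_inv₀ h0).mpr h1) (e ▸ mem_image_of_mem f hx)
  have hinjrad : Function.Injective fun t : I => jnv c ((t : ℝ) • w) := by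
    intro t t' e
    have e' := jnv_injective c e
    apply Subtype.ext
    by_contra hne
    have h6 : ((t : ℝ) - t') • w = 0 := by rw [sub_smul, e', sub_self]
    rcases smul_eq_zero.mp h6 with h7 | h7
    · exact hne (by linarith)
    · exact hw0 h7
  have hcontrad : Continuous fun t : I => jnv c ((t : ℝ) • w) :=
    (continuous_jnv c).comp (by fun_prop)
  have notinf : ∀ {x : OnePoint Plane}, x ≠ ∞ → ∃ q : Plane, x = q := by
    intro x hx
    obtain ⟨q, hq⟩ := OnePoint.ne_infty_iff_exists.mp hx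
    exact ⟨q, hq.symm⟩
  let γ : SPath := fun t => jnv c ((t : ℝ) • w)
  -- the preimage of the radial path
  let β : I → OnePoint Plane := fun t => f.onePointCongr.symm (jnv c ((t : ℝ) • w))
  have hβc : Continuous β := f.onePointCongr.symm.continuous.comp hcontrad
  have hβinj : Function.Injective β := f.onePointCongr.symm.injective.comp hinjrad
  have hfβ : ∀ t, f.onePointCongr (β t) = jnv c ((t : ℝ) • w) := fun t =>
    f.onePointCongr.apply_symm_apply _
  have hβ0 : β 0 = ∞ := by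
    apply f.onePointCongr.injective
    rw [hfβ]; simp [jnv_zero]
  have hβ1 : β 1 = p := by
    apply f.onePointCongr.injective
    rw [hfβ]
    have : f.onePointCongr (p : OnePoint Plane) = ((f p : Plane) : OnePoint Plane) := rfl
    rw [this, h.fixed]
    simp [hrad1]
  have hβK : ∀ t : I, t < 1 → ∀ x ∈ K, β t ≠ x := by
    intro t ht x hx e
    rcases eq_or_lt_of_le (show (0 : I) ≤ t from t.2.1) with h' | h'
    · rw [← h', hβ0] at e; exact OnePoint.infty_ne_coe _ e
    · have e2 := congrArg f.onePointCongr e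
      rw [hfβ] at e2
      exact hradK' t h' ht x hx e2
  have hβc' : ∀ t : I, β t ≠ (c : OnePoint Plane) := by
    intro t
    rcases lt_or_eq_of_le (show t ≤ (1 : I) from t.2.2) with h' | h'
    · exact hβK t h' c hcK
    · rw [h', hβ1]; exact hpc
  -- pass to inversion coordinates
  let S : Set Plane := {v | v ≠ 0 ∧ c + (‖v‖ ^ 2)⁻¹ • v ∈ K}
  have hS : ∀ v, v ∈ S ↔ ∃ x ∈ K, jnv c v = x := by
    intro v
    constructor
    · rintro ⟨h0, hx⟩; exact ⟨_, hx, jnv_ne h0⟩
    · rintro ⟨x, hx, e⟩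
      have h0 : v ≠ 0 := by
        rintro rfl
        rw [jnv_zero] at e; exact OnePoint.infty_ne_coe _ e
      rw [jnv_ne h0, OnePoint.coe_eq_coe] at e
      exact ⟨h0, e ▸ hx⟩
  have hb : ∀ t, jnv c (inv c (β t)) = β t := fun t => jnv_inv (hβc' t)
  have hb1 : inv c (β 1) = w := by rw [hβ1]
  obtain ⟨H, Hc, H0, H1, Hs0, Hs1, HS, Hinj⟩ := alexander_lin (fun t => inv c (β t))
    (by
      rw [continuous_iff_continuousAt]
      intro t
      exact (continuousAt_inv (hβc' t)).comp hβc.continuousAt)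
    (by rw [hβ0]; rfl) S
    (by
      rintro v ⟨h0, hx⟩ r hr
      have hr0 : 0 < r := by linarith
      refine ⟨smul_ne_zero hr0.ne' h0, ?_⟩
      have hstar := h.star _ hx r⁻¹ (by positivity) (inv_le_one_of_one_le₀ hr)
      have e : c + r⁻¹ • (c + (‖v‖ ^ 2)⁻¹ • v - c) = c + (‖r • v‖ ^ 2)⁻¹ • r • v := by
        have hv : 0 < ‖v‖ := norm_pos_iff.mpr h0
        rw [add_sub_cancel_left, norm_smul, smul_smul, smul_smul, Real.norm_of_nonneg hr0.le]
        congr 2
        field_simp
      rw [← e]; exact hstar)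
    (by
      rw [hb1, hS]; exact ⟨p, hpK, hrad1⟩)
    (by
      intro t ht hmem
      rw [hS, hb] at hmem
      obtain ⟨x, hx, e⟩ := hmem
      exact hβK t ht x hx e)
    (by
      intro r h0 h1 hmem
      rw [hb1, hS] at hmem
      obtain ⟨x, hx, e⟩ := hmem
      exact hradK r h0 h1 x hx e)
    (by
      intro t t' e
      apply hβinj
      rw [← hb t, ← hb t', show inv c (β t) = inv c (β t') from e])
  rw [hb1] at H0 Hs1
  -- the rays of the isotopy
  let R : I → SPath := fun s t => f.onePointCongr (jnv c (H (s, t)))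
  have hR : ∀ s, IsRay C (R s) := by
    intro s
    refine ⟨f.onePointCongr.continuous.comp ((continuous_jnv c).comp (Hc.comp (by fun_prop))),
      f.onePointCongr.injective.comp ((jnv_injective c).comp (Hinj s)), ?_, ⟨p, h.mem, ?_⟩, ?_⟩
    · change f.onePointCongr (jnv c (H (s, 0))) = ∞
      rw [Hs0, jnv_zero]; rfl
    · change f.onePointCongr (jnv c (H (s, 1))) = p
      rw [Hs1, hrad1]
      have : f.onePointCongr (p : OnePoint Plane) = ((f p : Plane) : OnePoint Plane) := rfl
      rw [this, h.fixed]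
    · intro t h0 h1
      have hne : jnv c (H (s, t)) ≠ ∞ := by
        intro e
        have e2 : H (s, t) = H (s, 0) := by
          rw [Hs0]
          apply jnv_injective c
          rw [e, jnv_zero]
        exact h0.ne' (Hinj s e2)
      obtain ⟨q, hq⟩ := notinf hne
      refine ⟨f q, ?_, ?_⟩
      · rw [← hC]
        rintro ⟨q', hq', e⟩
        have e' := f.injective e
        subst e'
        exact HS s t h1 ((hS _).mpr ⟨q', h.subset hq', hq⟩)
      · change f.onePointCongr (jnv c (H (s, t))) = _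
        rw [hq]; rfl
  refine ⟨γ, Isotopic.symm ⟨R, ?_, hR, ?_, ?_⟩⟩
  · exact f.onePointCongr.continuous.comp ((continuous_jnv c).comp Hc)
  · funext t
    change f.onePointCongr (jnv c (H (0, t))) = f.onePointCongr (jnv c ((t : ℝ) • w))
    rw [H0]
  · funext t
    change f.onePointCongr (jnv c (H (1, t))) = jnv c ((t : ℝ) • w)
    rw [H1, hb, hfβ]

/-! ### The invariant set -/

lemma mem_invSet_zpow {f : Plane ≃ₜ Plane} {q : Plane} :
    q ∈ invSet f ↔ ∀ n : ℤ, (f ^ n : Plane ≃ₜ Plane) q ∈ Q := by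
  have hpow : ∀ (m : ℕ) (x : Plane), (f ^ m : Plane ≃ₜ Plane) x = f^[m] x := by
    intro m
    induction m with
    | zero => intro x; rfl
    | succ m ih =>
      intro x
      rw [Function.iterate_succ_apply, ← ih, pow_succ]; rfl
  simp only [invSet, mem_inter_iff, mem_iInter, mem_preimage]
  constructor
  · rintro ⟨h1, h2⟩ n
    obtain ⟨m, rfl | rfl⟩ := n.eq_nat_or_neg
    · rw [zpow_natCast, hpow]; exact h2 m
    · obtain ⟨q', hq', he⟩ := h1 m
      rw [zpow_neg, zpow_natCast]
      have : ((f ^ m)⁻¹ : Plane ≃ₜ Plane) q = q' := by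
        rw [← he, ← hpow]
        exact (f ^ m : Plane ≃ₜ Plane).symm_apply_apply q'
      rw [this]; exact hq'
  · intro h
    constructor
    · intro m
      refine ⟨(f ^ (-(m : ℤ)) : Plane ≃ₜ Plane) q, h _, ?_⟩
      rw [← hpow, zpow_neg, zpow_natCast]
      exact (f ^ m : Plane ≃ₜ Plane).apply_symm_apply q
    · intro m
      have := h m
      rwa [zpow_natCast, hpow] at this

lemma image_invSet (f : Plane ≃ₜ Plane) : f '' invSet f = invSet f := by
  ext q
  constructor
  · rintro ⟨q', hq', rfl⟩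
    rw [mem_invSet_zpow] at hq' ⊢
    intro n
    have := hq' (n + 1)
    rw [zpow_add_one] at this
    exact this
  · intro hq
    rw [mem_invSet_zpow] at hq
    refine ⟨(f ^ (-1 : ℤ) : Plane ≃ₜ Plane) q, ?_, ?_⟩
    · rw [mem_invSet_zpow]
      intro n
      rw [← Homeomorph.mul_apply, ← zpow_add]
      exact hq _
    · have : f ((f ^ (-1 : ℤ) : Plane ≃ₜ Plane) q) = (f * f ^ (-1 : ℤ) : Plane ≃ₜ Plane) q := rfl
      rw [this]
      simp

lemma invSet_subset (f : Plane ≃ₜ Plane) : invSet f ⊆ Q := by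
  intro q hq
  have := mem_invSet_zpow.mp hq 0
  simpa using this

lemma Q_eq : Q = Icc (0 : ℝ) 1 ×ˢ Icc (0 : ℝ) 1 := by
  ext q
  simp only [Q, mem_ofPred_eq, mem_prod, mem_Icc]
  tauto

lemma isCompact_Q : IsCompact Q := by
  rw [Q_eq]; exact isCompact_Icc.prod isCompact_Icc

lemma isCompact_invSet (f : Plane ≃ₜ Plane) : IsCompact (invSet f) := by
  have e : invSet f = ⋂ n : ℤ, (f ^ n : Plane ≃ₜ Plane) ⁻¹' Q := by
    ext q
    rw [mem_invSet_zpow]
    simp
  refine isCompact_Q.of_isClosed_subset ?_ (invSet_subset f)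
  rw [e]
  exact isClosed_iInter fun n => isCompact_Q.isClosed.preimage (f ^ n : Plane ≃ₜ Plane).continuous

lemma map_mem_invSet {f : Plane ≃ₜ Plane} {q : Plane} (hq : q ∈ invSet f) : f q ∈ invSet f := by
  have := image_invSet f
  rw [← this]; exact mem_image_of_mem f hq

lemma mem_invSet_of_fixed {f : Plane ≃ₜ Plane} {p : Plane} (hp : p ∈ Q) (hf : f p = p) :
    p ∈ invSet f := by
  have h1 : ∀ m : ℕ, f^[m] p = p := fun m => Function.iterate_fixed hf m
  refine ⟨mem_iInter.mpr fun m => ⟨p, hp, h1 m⟩, mem_iInter.mpr fun m => ?_⟩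
  rw [mem_preimage, h1]; exact hp

/-- The set `K` used for the horseshoe folded over the top: the part of `Q` between the height
`y₀` of the fixed point and the top of the upper strip. -/
def slab (y₀ y₁ : ℝ) : Set Plane := {q | 0 ≤ q.1 ∧ q.1 ≤ 1 ∧ y₀ ≤ q.2 ∧ q.2 ≤ y₁}

lemma rayData_up {f : Plane ≃ₜ Plane} {a₀ b₀ a₁ b₁ c₀ d₀ c₁ d₁ : ℝ}
    (h : IsUpHorseshoe f a₀ b₀ a₁ b₁ c₀ d₀ c₁ d₁) :
    ∃ K k p, RayData f (invSet f) K k p := by
  obtain ⟨⟨ha0, hab0, hba, hab1, hb1⟩, ⟨hc0, hcd0, hd0⟩, ⟨hc1, hcd1, hd1⟩, hdisj, hlower, hupper,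
    hrest, hfold⟩ := h
  -- the widths
  have hw : 0 < b₀ - a₀ := by linarith
  have hw1 : b₀ - a₀ < 1 := by linarith
  have hcd : d₀ - c₀ < 1 := by
    rcases hdisj with h | h <;> linarith
  set y₀ : ℝ := a₀ / (1 - (b₀ - a₀)) with hy₀
  set x₀ : ℝ := c₀ / (1 - (d₀ - c₀)) with hx₀
  have hY : 0 < 1 - (b₀ - a₀) := by linarith
  have hX : 0 < 1 - (d₀ - c₀) := by linarith
  have ey : (y₀ - a₀) / (b₀ - a₀) = y₀ := by
    rw [div_eq_iff hw.ne', hy₀]; field_simp; ring
  have ex : c₀ + (d₀ - c₀) * x₀ = x₀ := by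
    rw [hx₀]; field_simp; ring
  have hy0a : a₀ ≤ y₀ := by
    rw [hy₀, le_div_iff₀ hY]; nlinarith
  have hy0b : y₀ ≤ b₀ := by
    rw [hy₀, div_le_iff₀ hY]; nlinarith
  have hx0c : c₀ ≤ x₀ := by
    rw [hx₀, le_div_iff₀ hX]; nlinarith
  have hx0d : x₀ ≤ d₀ := by
    rw [hx₀, div_le_iff₀ hX]; nlinarith
  have hx0 : 0 ≤ x₀ := by linarith
  have hx1 : x₀ ≤ 1 := by linarith
  have hfix : f (x₀, y₀) = (x₀, y₀) := by
    rw [hlower x₀ y₀ hx0 hx1 hy0a hy0b, ex, ey]
  have hpQ : ((x₀, y₀) : Plane) ∈ Q := ⟨hx0, hx1, by simp only; linarith, by simp only; linarith⟩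
  have hpΛ : ((x₀, y₀) : Plane) ∈ invSet f := mem_invSet_of_fixed hpQ hfix
  -- points of the invariant set lie in the strips
  have hstrip : ∀ q ∈ invSet f, (a₀ ≤ q.2 ∧ q.2 ≤ b₀) ∨ (a₁ ≤ q.2 ∧ q.2 ≤ b₁) := by
    intro q hq
    by_contra hcon
    have hcon' : q.2 < a₀ ∨ (b₀ < q.2 ∧ q.2 < a₁) ∨ b₁ < q.2 := by
      by_contra h'
      push Not at h'
      apply hcon
      rcases le_or_gt q.2 b₀ with h1 | h1
      · left; exact ⟨h'.1, h1⟩
      · right; exact ⟨h'.2.1 h1, h'.2.2⟩
    exact hrest q (invSet_subset f hq) hcon' (invSet_subset f (map_mem_invSet hq))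
  -- the lowest point of the invariant set
  have hlow : ∀ q ∈ invSet f, y₀ ≤ q.2 := by
    obtain ⟨m, hm, hmin⟩ := (isCompact_invSet f).exists_isMinOn ⟨_, hpΛ⟩
      (f := fun q : Plane => q.2) (by fun_prop)
    have hm' : ∀ q ∈ invSet f, m.2 ≤ q.2 := fun q hq => hmin hq
    have key : y₀ ≤ m.2 := by
      rcases hstrip m hm with h1 | h1
      · have hmQ := invSet_subset f hm
        have e : f m = (c₀ + (d₀ - c₀) * m.1, (m.2 - a₀) / (b₀ - a₀)) :=
          hlower m.1 m.2 hmQ.1 hmQ.2.1 h1.1 h1.2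
        have h2 := hm' _ (map_mem_invSet hm)
        rw [e] at h2
        simp only at h2
        rw [le_div_iff₀ hw] at h2
        rw [hy₀, div_le_iff₀ hY]
        nlinarith
      · linarith [h1.1]
    exact fun q hq => key.trans (hm' q hq)
  refine ⟨slab y₀ b₁, (x₀, b₁), (x₀, y₀), ?_, ?_, hpΛ, hfix, ?_, ?_, ?_⟩
  · intro q hq
    have hqQ := invSet_subset f hq
    refine ⟨hqQ.1, hqQ.2.1, hlow q hq, ?_⟩
    rcases hstrip q hq with h1 | h1
    · linarith [h1.2]
    · exact h1.2
  · rintro ⟨x, y⟩ ⟨hx, hx', hy, hy'⟩ r hr hr'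
    simp only at hx hx' hy hy'
    refine ⟨?_, ?_, ?_, ?_⟩ <;>
      simp only [Prod.fst_add, Prod.snd_add, Prod.smul_fst, Prod.smul_snd, Prod.fst_sub,
        Prod.snd_sub, smul_eq_mul]
    · nlinarith [mul_nonneg hr hx, mul_nonneg (sub_nonneg.mpr hr') hx0]
    · nlinarith [mul_nonneg hr (sub_nonneg.mpr hx'),
        mul_nonneg (sub_nonneg.mpr hr') (sub_nonneg.mpr hx1)]
    · nlinarith [mul_nonneg hr (sub_nonneg.mpr hy),
        mul_nonneg (sub_nonneg.mpr hr') (show 0 ≤ b₁ - y₀ by linarith)]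
    · nlinarith [mul_nonneg hr (sub_nonneg.mpr hy')]
  · intro e
    have := congrArg Prod.snd e
    simp only at this
    linarith
  · rintro r hr ⟨-, -, h1, -⟩
    simp only [Prod.snd_add, Prod.smul_snd, Prod.snd_sub, smul_eq_mul] at h1
    nlinarith
  · rintro r hr ⟨q, ⟨hq1, hq1', hq2, hq3⟩, e⟩
    have e1 : (f q).1 = x₀ := by
      rw [e]; simp
    have e2 : (f q).2 < y₀ := by
      rw [e]
      simp only [Prod.snd_add, Prod.smul_snd, Prod.snd_sub, smul_eq_mul]
      nlinarith
    have hqQ : q ∈ Q := ⟨hq1, hq1', by linarith, by linarith⟩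
    rcases le_or_gt q.2 b₀ with h1 | h1
    · have e3 : f q = (c₀ + (d₀ - c₀) * q.1, (q.2 - a₀) / (b₀ - a₀)) :=
        hlower q.1 q.2 hq1 hq1' (by linarith) h1
      rw [e3] at e2
      simp only at e2
      rw [div_lt_iff₀ hw] at e2
      rw [div_eq_iff hw.ne'] at ey
      linarith
    · rcases lt_or_ge q.2 a₁ with h2 | h2
      · have h3 := hfold q hqQ h1 h2
        have h4 := hrest q hqQ (Or.inr (Or.inl ⟨h1, h2⟩))
        apply h4
        exact ⟨by rw [e1]; exact hx0, by rw [e1]; exact hx1, h3.le, by linarith⟩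
      · have e3 : f q = (d₁ - (d₁ - c₁) * q.1, (b₁ - q.2) / (b₁ - a₁)) :=
          hupper q.1 q.2 hq1 hq1' h2 hq3
        rw [e3] at e1
        simp only at e1
        have h6 : c₁ ≤ x₀ := by rw [← e1]; nlinarith
        have h7 : x₀ ≤ d₁ := by rw [← e1]; nlinarith
        rcases hdisj with h8 | h8 <;> linarith

/-- The reflection as a homeomorphism. -/
def flipH : Plane ≃ₜ Plane where
  toFun := flip
  invFun := flip
  left_inv q := by simp [flip]
  right_inv q := by simp [flip]
  continuous_toFun := by unfold flip; fun_prop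
  continuous_invFun := by unfold flip; fun_prop

lemma flip_flip (q : Plane) : flip (flip q) = q := by
  change (q.1, 1 - (1 - q.2)) = q
  simp

lemma flip_mem_Q {q : Plane} (hq : q ∈ Q) : flip q ∈ Q := by
  obtain ⟨h1, h2, h3, h4⟩ := hq
  exact ⟨h1, h2, by simp only [flip]; linarith, by simp only [flip]; linarith⟩

lemma conj_zpow_apply (f : Plane ≃ₜ Plane) (n : ℤ) (q : Plane) :
    (((flipH.trans f).trans flipH) ^ n : Plane ≃ₜ Plane) q =
      flip ((f ^ n : Plane ≃ₜ Plane) (flip q)) := by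
  have h1 : ((flipH.trans f).trans flipH : Plane ≃ₜ Plane) = flipH * f * flipH⁻¹ := by
    ext1 x
    have : (flipH⁻¹ : Plane ≃ₜ Plane) x = flip x := rfl
    rw [Homeomorph.mul_apply, Homeomorph.mul_apply, this]; rfl
  rw [h1, conj_zpow]
  rfl

lemma mem_invSet_flip {f : Plane ≃ₜ Plane} {q : Plane} :
    q ∈ invSet ((flipH.trans f).trans flipH) ↔ flip q ∈ invSet f := by
  rw [mem_invSet_zpow, mem_invSet_zpow]
  refine forall_congr' fun n => ?_
  rw [conj_zpow_apply]
  exact ⟨fun h => by simpa [flip_flip] using flip_mem_Q h, fun h => flip_mem_Q h⟩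

lemma flip_affine (k x : Plane) (r : ℝ) :
    flip (k + r • (x - k)) = flip k + r • (flip x - flip k) := by
  apply Prod.ext
  · rfl
  · change 1 - (k.2 + r * (x.2 - k.2)) = (1 - k.2) + r * ((1 - x.2) - (1 - k.2))
    ring

lemma rayData_flip {f : Plane ≃ₜ Plane} {K : Set Plane} {k p : Plane}
    (h : RayData ((flipH.trans f).trans flipH) (invSet ((flipH.trans f).trans flipH)) K k p) :
    RayData f (invSet f) (flip ⁻¹' K) (flip k) (flip p) where
  subset := by
    intro q hq
    apply h.subset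
    rw [mem_invSet_flip, flip_flip]; exact hq
  star := by
    intro x hx r hr hr'
    have := h.star (flip x) hx r hr hr'
    change flip (flip k + r • (x - flip k)) ∈ K
    rw [flip_affine, flip_flip]; exact this
  mem := mem_invSet_flip.mp h.mem
  fixed := by
    have h1 : flip (f (flip p)) = p := h.fixed
    have := congrArg flip h1
    rwa [flip_flip] at this
  ne := fun e => h.ne (flipH.injective e)
  ray := by
    intro r hr hmem
    apply h.ray r hr
    change flip (flip k + r • (flip p - flip k)) ∈ K at hmem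
    rwa [flip_affine, flip_flip, flip_flip] at hmem
  ray' := by
    rintro r hr ⟨q, hq, e⟩
    apply h.ray' r hr
    refine ⟨flip q, hq, ?_⟩
    change flip (f (flip (flip q))) = _
    rw [flip_flip, e, flip_affine, flip_flip, flip_flip]

/-! ### The action is by graph automorphisms -/

/-- The action as a homomorphism of graphs. -/
def pushHom {C : Set Plane} (f : Plane ≃ₜ Plane) (hf : f '' C = C) :
    rayGraph C →g rayGraph C where
  toFun := push f
  map_rel' := by
    have key : ∀ v w, v ≠ w → (IsRayClass C v ∧ IsRayClass C w ∧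
        ∃ γ ∈ v, ∃ δ ∈ w, range γ ∩ range δ = {∞}) → (rayGraph C).Adj (push f v) (push f w) := by
      rintro v w hne ⟨hv, hw, γ, hγ, δ, hδ, h⟩
      rw [rayGraph, SimpleGraph.fromRel_adj]
      refine ⟨fun e => hne ((comp'_injective f).image_injective e), Or.inl ⟨hv.push f hf,
        hw.push f hf, comp' f γ, mem_image_of_mem _ hγ, comp' f δ, mem_image_of_mem _ hδ, ?_⟩⟩
      have h1 : range (comp' f γ) = f.onePointCongr '' range γ := by
        rw [← range_comp]; rfl
      have h2 : range (comp' f δ) = f.onePointCongr '' range δ := by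
        rw [← range_comp]; rfl
      rw [h1, h2, ← image_inter f.onePointCongr.injective, h, image_singleton]
      rfl
    intro v w hvw
    rw [rayGraph, SimpleGraph.fromRel_adj] at hvw
    obtain ⟨hne, h | h⟩ := hvw
    · exact key v w hne h
    · exact (key w v hne.symm h).symm

lemma dist_push_le {C : Set Plane} (f : Plane ≃ₜ Plane) (hf : f '' C = C) {v w : Set SPath}
    (h : (rayGraph C).Reachable v w) :
    (rayGraph C).Reachable (push f v) (push f w) ∧
      (rayGraph C).dist (push f v) (push f w) ≤ (rayGraph C).dist v w := by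
  obtain ⟨W, hW⟩ := h.exists_walk_length_eq_dist
  refine ⟨⟨W.map (pushHom f hf)⟩, ?_⟩
  rw [← hW, ← SimpleGraph.Walk.length_map (pushHom f hf) W]
  exact SimpleGraph.dist_le (W.map (pushHom f hf))

lemma dist_iterate_le {C : Set Plane} (f : Plane ≃ₜ Plane) (hf : f '' C = C) {v w : Set SPath}
    (hv : push f v = v) (h : (rayGraph C).Reachable v w) (n : ℕ) :
    (rayGraph C).Reachable v ((push f)^[n] w) ∧
      (rayGraph C).dist v ((push f)^[n] w) ≤ (rayGraph C).dist v w := by
  induction n with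
  | zero => exact ⟨h, le_rfl⟩
  | succ n ih =>
    rw [Function.iterate_succ_apply']
    have := dist_push_le f hf ih.1
    rw [hv] at this
    exact ⟨this.1, this.2.trans ih.2⟩

theorem main (f : Plane → Plane) (hf : IsHorseshoe f) :
    ∃ v, IsRayClass (invSet f) v ∧ push f v = v ∧
      ∀ w, (rayGraph (invSet f)).Reachable v w →
        (∀ n : ℕ, (rayGraph (invSet f)).dist w ((push f)^[n] w) ≤
          2 * (rayGraph (invSet f)).dist v w) ∧
        Tendsto (fun n : ℕ => ((rayGraph (invSet f)).dist w ((push f)^[n] w) : ℝ) / n)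
          atTop (𝓝 0) := by
  obtain ⟨hfh, a₀, b₀, a₁, b₁, c₀, d₀, c₁, d₁, hor⟩ := hf
  let F : Plane ≃ₜ Plane := hfh.homeomorph
  have hF : ∀ x, F x = f x := fun x => rfl
  have hFf : (F : Plane → Plane) = f := rfl
  have hd : ∃ K k p, RayData F (invSet F) K k p := by
    rcases hor with h | h
    · exact rayData_up (f := F) h
    · obtain ⟨K, k, p, hd⟩ := rayData_up (f := (flipH.trans F).trans flipH) h
      exact ⟨_, _, _, rayData_flip hd⟩
  obtain ⟨K, k, p, hd⟩ := hd
  obtain ⟨γ, hγ⟩ := exists_fixed_ray (image_invSet F) hd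
  rw [← hFf]
  have hv : push F {δ | Isotopic (invSet F) γ δ} = {δ | Isotopic (invSet F) γ δ} := by
    rw [push_class F (image_invSet F)]
    exact (class_eq_of_isotopic hγ).symm
  refine ⟨{δ | Isotopic (invSet F) γ δ}, ⟨γ, hγ.left, rfl⟩, hv, fun w hw => ?_⟩
  have hbound : ∀ n : ℕ, (rayGraph (invSet F)).dist w ((push F)^[n] w) ≤
      2 * (rayGraph (invSet F)).dist {δ | Isotopic (invSet F) γ δ} w := by
    intro n
    obtain ⟨h1, h2⟩ := dist_iterate_le F (image_invSet F) hv hw n
    have h3 := hw.symm.dist_triangle_left ((push F)^[n] w)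
    rw [SimpleGraph.dist_comm (u := w) (v := {δ | Isotopic (invSet F) γ δ})] at h3
    omega
  refine ⟨hbound, ?_⟩
  have h0 : Tendsto (fun n : ℕ =>
      ((2 * (rayGraph (invSet F)).dist {δ | Isotopic (invSet F) γ δ} w : ℕ) : ℝ) / (n : ℝ))
      atTop (𝓝 0) :=
    tendsto_const_div_atTop_nhds_zero_nat _
  refine squeeze_zero (fun n => by positivity) (fun n => ?_) h0
  gcongr
  exact hbound n

end Pool.Agent.H83.Horseshoe
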